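import Pool.Agent.Q287.HC.HC4

open Set Filter Topology

namespace Pool.Agent.Results.MP_ede858_pr.NeverHCM

open Q287.HC

/-- Question Q1 of MP_ede858_pr: no density `φ_{μ,ν,a,b}(x) = N x^(ν-1) e^(-bx) I_μ(ax)` and no density
`ξ_{μ,a,b}(x) = N x^(2μ) e^(-bx) I_μ(ax)^2` (`N > 0` any constant, in particular the normalising one) is
hyperbolically completely monotone. -/
theorem result :
    (∀ μ ν a b N : ℝ, -1 < μ → 0 < μ + ν → 0 < a → a < b → 0 < N →
      ¬ IsHCM (fun x => N * (x ^ (ν - 1) * Real.exp (-(b * x)) * besselI μ (a * x)))) ∧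
    (∀ μ a b N : ℝ, -1 / 4 < μ → 0 < 2 * a → 2 * a < b → 0 < N →
      ¬ IsHCM (fun x => N * (x ^ (2 * μ) * Real.exp (-(b * x)) * (besselI μ (a * x)) ^ 2))) := by
  refine ⟨?_, ?_⟩
  · intro μ ν a b N hμ _ ha _ hN
    exact phi_not_HCM μ ν a b N hμ ha hN
  · intro μ a b N hμ ha _ hN
    exact xi_not_HCM μ a b N (by linarith) (by linarith) hN

end Pool.Agent.Results.MP_ede858_pr.NeverHCM
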